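import Pool.Agent.Helper44.GF.Defs

open Finset MeasureTheory Filter Topology
open scoped ENNReal ContDiff

namespace Pool.Agent.Helper44.GF

/-- The coordinate projection of the parametrisation. -/
noncomputable def cover_pr {m n : ℕ} (F : Face (m + 1) n) (f : Fin (m + 1) → Fin n)
    (t : Fin (m + 1) → ℝ) : Fin (m + 1) → ℝ := fun b => F.param t (f b)

lemma cover_pr_eq {m n : ℕ} (F : Face (m + 1) n) (f : Fin (m + 1) → Fin n)
    (t : Fin (m + 1) → ℝ) :
    cover_pr F f t = (fun b => F.base (f b)) + Matrix.toLin' (F.mat.submatrix f id) t := by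
  funext b
  simp [cover_pr, Face.param, Face.mat, Matrix.mulVec, dotProduct, mul_comm]

lemma cover_pr_cont {m n : ℕ} (F : Face (m + 1) n) (f : Fin (m + 1) → Fin n) :
    Continuous (cover_pr F f) := by
  have h : cover_pr F f = fun t => (fun b => F.base (f b))
      + Matrix.toLin' (F.mat.submatrix f id) t := funext fun t => cover_pr_eq F f t
  rw [h]
  exact continuous_const.add (LinearMap.continuous_of_finiteDimensional _)

lemma cover_dom_compact {m n : ℕ} (F : Face m n) : IsCompact F.dom :=
  (Finset.finite_toSet F.verts).isCompact_convexHull (𝕜 := ℝ)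

lemma cover_vol_image {m n : ℕ} (F : Face (m + 1) n) (f : Fin (m + 1) → Fin n)
    (s : Set (Fin (m + 1) → ℝ)) :
    volume (cover_pr F f '' s)
      = ENNReal.ofReal |(F.mat.submatrix f id).det| * volume s := by
  have h : cover_pr F f = fun t => (fun b => F.base (f b))
      + Matrix.toLin' (F.mat.submatrix f id) t := funext fun t => cover_pr_eq F f t
  have h2 : cover_pr F f '' s
      = (fun x => (fun b => F.base (f b)) + x) '' ((Matrix.toLin' (F.mat.submatrix f id)) '' s) := by
    rw [h, Set.image_image]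
  rw [h2, Set.image_add_left, measure_preimage_add, Measure.addHaar_image_linearMap,
    LinearMap.det_toLin']

lemma cover_vol_preimage {m n : ℕ} (F : Face (m + 1) n) (f : Fin (m + 1) → Fin n)
    (hD : (F.mat.submatrix f id).det ≠ 0) (s : Set (Fin (m + 1) → ℝ)) :
    volume (cover_pr F f ⁻¹' s)
      = ENNReal.ofReal |((F.mat.submatrix f id).det)⁻¹| * volume s := by
  have h : cover_pr F f = fun t => (fun b => F.base (f b))
      + Matrix.toLin' (F.mat.submatrix f id) t := funext fun t => cover_pr_eq F f t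
  have h2 : cover_pr F f ⁻¹' s
      = (Matrix.toLin' (F.mat.submatrix f id)) ⁻¹' ((fun x => (fun b => F.base (f b)) + x) ⁻¹' s) := by
    rw [h]; rfl
  rw [h2, Measure.addHaar_preimage_linearMap, LinearMap.det_toLin', measure_preimage_add]
  rw [LinearMap.det_toLin']
  exact hD

/-- The push-forward of the domain. -/
noncomputable def cover_nu {m n : ℕ} (F : Face (m + 1) n) (f : Fin (m + 1) → Fin n) :
    Measure (Fin (m + 1) → ℝ) := (volume.restrict F.dom).map (cover_pr F f)

instance cover_nu_fin {m n : ℕ} (F : Face (m + 1) n) (f : Fin (m + 1) → Fin n) :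
    IsFiniteMeasure (cover_nu F f) := by
  have : IsFiniteMeasure (volume.restrict F.dom) :=
    ⟨by rw [Measure.restrict_apply_univ]; exact (cover_dom_compact F).measure_lt_top⟩
  unfold cover_nu
  infer_instance

/-- The weighted sum of the push-forwards. -/
noncomputable def cover_mu {m n K : ℕ} (F : Fin K → Face (m + 1) n) (f : Fin (m + 1) → Fin n)
    (c : Fin K → ℝ≥0∞) : Measure (Fin (m + 1) → ℝ) := ∑ j, c j • cover_nu (F j) f

lemma cover_mu_fin {m n K : ℕ} (F : Fin K → Face (m + 1) n) (f : Fin (m + 1) → Fin n)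
    (c : Fin K → ℝ≥0∞) (hc : ∀ j, c j ≠ ⊤) : IsFiniteMeasure (cover_mu F f c) := by
  constructor
  unfold cover_mu
  rw [Measure.finsetSum_apply, ENNReal.sum_lt_top]
  intro j _
  rw [Measure.smul_apply, smul_eq_mul]
  exact ENNReal.mul_lt_top (lt_top_iff_ne_top.2 (hc j)) (measure_lt_top _ _)

lemma cover_nu_null {m n : ℕ} (F : Face (m + 1) n) (f : Fin (m + 1) → Fin n)
    (A : Set (Fin (m + 1) → ℝ)) (hA : MeasurableSet A)
    (h : Disjoint A (cover_pr F f '' F.dom)) : cover_nu F f A = 0 := by
  unfold cover_nu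
  rw [Measure.map_apply (cover_pr_cont F f).measurable hA, Measure.restrict_apply
    ((cover_pr_cont F f).measurable hA)]
  have : cover_pr F f ⁻¹' A ∩ F.dom = ∅ := by
    ext t
    simp only [Set.mem_inter_iff, Set.mem_preimage, Set.mem_empty_iff_false, iff_false, not_and]
    intro h1 h2
    exact (Set.disjoint_left.1 h) h1 ⟨t, h2, rfl⟩
  rw [this, measure_empty]

/-- The union of the other faces. -/
noncomputable def cover_U {m n K : ℕ} (F : Fin K → Face (m + 1) n) (f : Fin (m + 1) → Fin n)
    (i : Fin K) : Set (Fin (m + 1) → ℝ) :=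
  ⋃ j ∈ (univ.erase i).filter (fun j => ((F j).mat.submatrix f id).det ≠ 0),
    cover_pr (F j) f '' (F j).dom

lemma cover_U_meas {m n K : ℕ} (F : Fin K → Face (m + 1) n) (f : Fin (m + 1) → Fin n)
    (i : Fin K) : MeasurableSet (cover_U F f i) := by
  unfold cover_U
  refine Finset.measurableSet_biUnion _ fun j _ => ?_
  exact ((cover_dom_compact (F j)).image (cover_pr_cont (F j) f)).isClosed.measurableSet

lemma cover_key {m n K : ℕ} (F : Fin K → Face (m + 1) n) (f : Fin (m + 1) → Fin n)
    (c c' : Fin K → ℝ≥0∞) (i : Fin K) (h : cover_mu F f c = cover_mu F f c')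
    (hi : c i ≠ 0) (hi' : c' i = 0)
    (h0 : ∀ j, ((F j).mat.submatrix f id).det = 0 → c' j = 0) :
    volume (F i).dom ≤ volume (cover_pr (F i) f ⁻¹' cover_U F f i) := by
  have hQ : MeasurableSet (cover_pr (F i) f '' (F i).dom) :=
    ((cover_dom_compact (F i)).image (cover_pr_cont (F i) f)).isClosed.measurableSet
  have hA : MeasurableSet (cover_pr (F i) f '' (F i).dom \ cover_U F f i) :=
    hQ.diff (cover_U_meas F f i)
  have h1 : cover_mu F f c' (cover_pr (F i) f '' (F i).dom \ cover_U F f i) = 0 := by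
    unfold cover_mu
    rw [Measure.finsetSum_apply]
    refine Finset.sum_eq_zero fun j _ => ?_
    rw [Measure.smul_apply, smul_eq_mul]
    by_cases hj : j = i
    · rw [hj, hi', zero_mul]
    by_cases hd : ((F j).mat.submatrix f id).det = 0
    · rw [h0 j hd, zero_mul]
    · rw [cover_nu_null (F j) f _ hA, mul_zero]
      refine Set.disjoint_left.2 fun x hx hx2 => hx.2 ?_
      unfold cover_U
      simp only [Set.mem_iUnion]
      exact ⟨j, by simp [hj, hd], hx2⟩
  have h2 : cover_nu (F i) f (cover_pr (F i) f '' (F i).dom \ cover_U F f i) = 0 := by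
    rw [← h] at h1
    unfold cover_mu at h1
    rw [Measure.finsetSum_apply, Finset.sum_eq_zero_iff] at h1
    have h3 := h1 i (Finset.mem_univ i)
    rw [Measure.smul_apply, smul_eq_mul, mul_eq_zero] at h3
    exact h3.resolve_left hi
  unfold cover_nu at h2
  rw [Measure.map_apply (cover_pr_cont (F i) f).measurable hA, Measure.restrict_apply
    ((cover_pr_cont (F i) f).measurable hA)] at h2
  calc volume (F i).dom ≤ volume ((cover_pr (F i) f ⁻¹'
        (cover_pr (F i) f '' (F i).dom \ cover_U F f i) ∩ (F i).dom)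
          ∪ cover_pr (F i) f ⁻¹' cover_U F f i) := by
        refine measure_mono fun t ht => ?_
        by_cases hu : cover_pr (F i) f t ∈ cover_U F f i
        · exact Or.inr hu
        · exact Or.inl ⟨⟨⟨t, ht, rfl⟩, hu⟩, ht⟩
    _ ≤ volume (cover_pr (F i) f ⁻¹' (cover_pr (F i) f '' (F i).dom \ cover_U F f i) ∩ (F i).dom)
          + volume (cover_pr (F i) f ⁻¹' cover_U F f i) := measure_union_le _ _
    _ = volume (cover_pr (F i) f ⁻¹' cover_U F f i) := by rw [h2, zero_add]

lemma cover_bound {m n K : ℕ} (F : Fin K → Face (m + 1) n) (f : Fin (m + 1) → Fin n)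
    (i : Fin K) (hD : ((F i).mat.submatrix f id).det ≠ 0) :
    volume (cover_pr (F i) f ⁻¹' cover_U F f i)
      ≤ ∑ j ∈ univ.erase i, ENNReal.ofReal
        |((F j).mat.submatrix f id).det / ((F i).mat.submatrix f id).det| * volume (F j).dom := by
  unfold cover_U
  rw [Set.preimage_iUnion₂]
  refine (measure_biUnion_finset_le _ _).trans ?_
  refine (Finset.sum_le_sum_of_subset (Finset.filter_subset _ _)).trans ?_
  refine Finset.sum_le_sum fun j _ => ?_
  rw [cover_vol_preimage (F i) f hD, cover_vol_image, ← mul_assoc,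
    ← ENNReal.ofReal_mul (abs_nonneg _), ← abs_mul, inv_mul_eq_div]

lemma cover_charFun {m n K : ℕ} (F : Fin K → Face (m + 1) n) (f : Fin (m + 1) → Fin n)
    (c : Fin K → ℝ≥0∞) (hc : ∀ j, c j ≠ ⊤) (L : StrongDual ℝ (Fin (m + 1) → ℝ)) :
    charFunDual (cover_mu F f c) L
      = ∑ j, (((c j).toReal : ℝ) : ℂ) *
        ((∫ t in (F j).dom, Real.cos (∑ a, L (Pi.single a 1) * (F j).param t (f a)) : ℝ)
          + (∫ t in (F j).dom, Real.sin (∑ a, L (Pi.single a 1) * (F j).param t (f a)) : ℝ)
            * Complex.I) := by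
  have hL : ∀ x : Fin (m + 1) → ℝ, L x = ∑ a, L (Pi.single a 1) * x a := by
    intro x
    conv_lhs => rw [show x = ∑ a, x a • (Pi.single a (1 : ℝ) : Fin (m + 1) → ℝ) from by
      funext b
      simp [Finset.sum_apply, Pi.single_apply]]
    rw [map_sum]
    refine Finset.sum_congr rfl fun a _ => ?_
    rw [map_smul, smul_eq_mul, mul_comm]
  rw [charFunDual_apply]
  unfold cover_mu
  have hbd : ∀ (μ : Measure (Fin (m + 1) → ℝ)) [IsFiniteMeasure μ],
      Integrable (fun v => Complex.exp (L v * Complex.I)) μ := by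
    intro μ _
    refine Integrable.of_bound (C := 1) ?_ ?_
    · exact (Continuous.aestronglyMeasurable (by fun_prop))
    · exact Filter.Eventually.of_forall fun v => by
        rw [Complex.norm_exp_ofReal_mul_I]
  rw [integral_finsetSum_measure (fun j _ => (hbd _).smul_measure (hc j))]
  refine Finset.sum_congr rfl fun j _ => ?_
  rw [integral_smul_measure, Complex.real_smul]
  congr 1
  unfold cover_nu
  rw [integral_map (cover_pr_cont (F j) f).aemeasurable
    (Continuous.aestronglyMeasurable (by fun_prop))]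
  have hfin : volume (F j).dom ≠ ⊤ := (cover_dom_compact (F j)).measure_lt_top.ne
  have hct : Continuous fun t => ∑ a, L (Pi.single a 1) * (F j).param t (f a) := by
    have h1 : (fun t => ∑ a, L (Pi.single a 1) * (F j).param t (f a))
        = fun t => L (cover_pr (F j) f t) := by
      funext t
      rw [hL]
      rfl
    rw [h1]
    exact L.continuous.comp (cover_pr_cont (F j) f)
  have hi1 : Integrable (fun t => ((Real.cos (∑ a, L (Pi.single a 1) * (F j).param t (f a)) : ℝ) : ℂ))
      (volume.restrict (F j).dom) := by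
    refine Integrable.ofReal ?_
    exact (Real.continuous_cos.comp hct).continuousOn.integrableOn_compact (cover_dom_compact (F j))
  have hi2 : Integrable (fun t => ((Real.sin (∑ a, L (Pi.single a 1) * (F j).param t (f a)) : ℝ) : ℂ)
      * Complex.I) (volume.restrict (F j).dom) := by
    refine Integrable.mul_const (Integrable.ofReal ?_) _
    exact (Real.continuous_sin.comp hct).continuousOn.integrableOn_compact (cover_dom_compact (F j))
  rw [← integral_complex_ofReal, ← integral_complex_ofReal, ← integral_mul_const,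
    ← integral_add hi1 hi2]
  refine integral_congr_ae (Filter.Eventually.of_forall fun t => ?_)
  simp only
  rw [hL, Complex.exp_mul_I, ← Complex.ofReal_cos, ← Complex.ofReal_sin]
  rfl

theorem st_COVER (hCF : ST_CF) : ST_COVER := by
  intro m n K F θ hθ hcyc f i hD
  set D : Fin K → ℝ := fun j => ((F j).mat.submatrix f id).det with hDdef
  set c : Fin K → ℝ := fun j => (θ j : ℝ) * D j with hcdef
  have hmu : cover_mu F f (fun j => ENNReal.ofReal (c j))
      = cover_mu F f (fun j => ENNReal.ofReal (-c j)) := by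
    have f1 : IsFiniteMeasure (cover_mu F f (fun j => ENNReal.ofReal (c j))) :=
      cover_mu_fin F f _ (fun j => ENNReal.ofReal_ne_top)
    have f2 : IsFiniteMeasure (cover_mu F f (fun j => ENNReal.ofReal (-c j))) :=
      cover_mu_fin F f _ (fun j => ENNReal.ofReal_ne_top)
    refine Measure.ext_of_charFunDual (funext fun L => ?_)
    rw [cover_charFun F f _ (fun j => ENNReal.ofReal_ne_top),
      cover_charFun F f _ (fun j => ENNReal.ofReal_ne_top), ← sub_eq_zero,
      ← Finset.sum_sub_distrib]
    obtain ⟨hc1, hs1⟩ := hCF m n K F θ hcyc f (fun a => L (Pi.single a 1))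
    have key : ∀ j, (((ENNReal.ofReal (c j)).toReal : ℝ) : ℂ) - (((ENNReal.ofReal (-c j)).toReal : ℝ) : ℂ)
        = ((c j : ℝ) : ℂ) := by
      intro j
      rw [← Complex.ofReal_sub]
      congr 1
      rcases le_total 0 (c j) with h | h
      · rw [ENNReal.toReal_ofReal h, ENNReal.ofReal_of_nonpos (by linarith)]
        simp
      · rw [ENNReal.ofReal_of_nonpos h, ENNReal.toReal_ofReal (by linarith)]
        simp
    have h2 : ∀ j ∈ (univ : Finset (Fin K)),
        (((ENNReal.ofReal (c j)).toReal : ℝ) : ℂ) *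
        ((∫ t in (F j).dom, Real.cos (∑ a, L (Pi.single a 1) * (F j).param t (f a)) : ℝ)
          + (∫ t in (F j).dom, Real.sin (∑ a, L (Pi.single a 1) * (F j).param t (f a)) : ℝ)
            * Complex.I)
        - (((ENNReal.ofReal (-c j)).toReal : ℝ) : ℂ) *
        ((∫ t in (F j).dom, Real.cos (∑ a, L (Pi.single a 1) * (F j).param t (f a)) : ℝ)
          + (∫ t in (F j).dom, Real.sin (∑ a, L (Pi.single a 1) * (F j).param t (f a)) : ℝ)
            * Complex.I)
        = ((c j * ∫ t in (F j).dom, Real.cos (∑ a, L (Pi.single a 1) * (F j).param t (f a)) : ℝ) : ℂ)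
          + ((c j * ∫ t in (F j).dom, Real.sin (∑ a, L (Pi.single a 1) * (F j).param t (f a)) : ℝ) : ℂ)
            * Complex.I := by
      intro j _
      rw [← sub_mul, key j]
      push_cast
      ring
    rw [Finset.sum_congr rfl h2, Finset.sum_add_distrib, ← Finset.sum_mul, ← Complex.ofReal_sum,
      ← Complex.ofReal_sum]
    have e1 : ∑ j, c j * ∫ t in (F j).dom, Real.cos (∑ a, L (Pi.single a 1) * (F j).param t (f a)) = 0 :=
      hc1
    have e2 : ∑ j, c j * ∫ t in (F j).dom, Real.sin (∑ a, L (Pi.single a 1) * (F j).param t (f a)) = 0 :=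
      hs1
    rw [e1, e2]
    simp
  have hci : c i ≠ 0 := mul_ne_zero (by exact_mod_cast hθ i) hD
  have hle : volume (F i).dom ≤ volume (cover_pr (F i) f ⁻¹' cover_U F f i) := by
    rcases lt_or_gt_of_ne hci with hneg | hpos
    · refine cover_key F f (fun j => ENNReal.ofReal (-c j)) (fun j => ENNReal.ofReal (c j)) i
        hmu.symm ?_ ?_ ?_
      · exact (ENNReal.ofReal_pos.2 (by linarith)).ne'
      · exact ENNReal.ofReal_of_nonpos hneg.le
      · intro j hj
        have : c j = 0 := by simp only [hcdef, hDdef]; rw [hj, mul_zero]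
        simp only [this, ENNReal.ofReal_zero]
    · refine cover_key F f (fun j => ENNReal.ofReal (c j)) (fun j => ENNReal.ofReal (-c j)) i
        hmu ?_ ?_ ?_
      · exact (ENNReal.ofReal_pos.2 hpos).ne'
      · exact ENNReal.ofReal_of_nonpos (by linarith)
      · intro j hj
        have : c j = 0 := by simp only [hcdef, hDdef]; rw [hj, mul_zero]
        simp only [this, neg_zero, ENNReal.ofReal_zero]
  have hle2 := hle.trans (cover_bound F f i hD)
  have hfin : ∀ j, volume (F j).dom ≠ ⊤ := fun j => (cover_dom_compact (F j)).measure_lt_top.ne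
  have hR : (∑ j ∈ univ.erase i, ENNReal.ofReal
        |((F j).mat.submatrix f id).det / ((F i).mat.submatrix f id).det| * volume (F j).dom) ≠ ⊤ := by
    refine (ENNReal.sum_lt_top.2 fun j _ => ?_).ne
    exact ENNReal.mul_lt_top ENNReal.ofReal_lt_top (lt_top_iff_ne_top.2 (hfin j))
  have h3 := (ENNReal.toReal_le_toReal (hfin i) hR).2 hle2
  rw [ENNReal.toReal_sum (fun j _ => (ENNReal.mul_lt_top ENNReal.ofReal_lt_top
    (lt_top_iff_ne_top.2 (hfin j))).ne)] at h3
  refine h3.trans (le_of_eq (Finset.sum_congr rfl fun j _ => ?_))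
  rw [ENNReal.toReal_mul, ENNReal.toReal_ofReal (abs_nonneg _)]

end Pool.Agent.Helper44.GF
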